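import Pool.Agent.X247.GT.Comp

/-!
# MP_013ca9_lc, Q1: an efficient online version of the triple uniform Good-Turing estimator
-/

namespace Pool.Agent.Results.MP_013ca9_lc.GoodTuring

open Pool.Agent.X247.GT

/-- For every finite alphabet with `d ≥ 2` letters there is a time-consistent, polynomial-time
computable estimator whose regret against the triple uniform Good-Turing family is at most
`2 ln (n + 2)` for all `n`, both for the family as posed (with the number of all partitions of
`n`) and for the normalised family (with the number of partitions with at most `d` parts). -/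
theorem result (d : ℕ) (hd : 2 ≤ d) : ∃ q : List (Fin d) → ℝ,
    TimeConsistent q ∧ PolyComputable q ∧
      ∀ n : ℕ, RegretLe q goodTuring n (2 * Real.log ((n : ℝ) + 2)) ∧
        RegretLe q goodTuringNorm n (2 * Real.log ((n : ℝ) + 2)) := by
  obtain ⟨e, rfl⟩ : ∃ e, d = e + 1 := ⟨d - 1, by omega⟩
  exact ⟨qt (Nat.factorial (e + 1)), qt_consistent _, Pool.Agent.NPC.X247.GT.computable _, regret⟩

end Pool.Agent.Results.MP_013ca9_lc.GoodTuring
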